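import Pool.Agent.Helper36.LL.PairNat

/-!
A proportionately dissociated set is, for every `L`, a union of `O(log L)` sets whose subsets with
at most `L` elements are dissociated and whose subsets with at most `2 ^ L` elements are unions of
four dissociated sets.
-/

set_option autoImplicit false

namespace Pool.Agent.Helper86.Kept.LogLogPartition

/-- Let every finite subset `B` of `A` contain a set with distinct subset sums of size at least
`c |B|`. Then for every `L ≥ 1` the set `A` is a union of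
`4 ⌈1 / c⌉ (⌈log₂ (3 L)⌉ + 2) + 2` sets `F i` such that every `B ⊆ F i` with at most `L` elements
has distinct subset sums, and every `B ⊆ F i` with at most `2 ^ L` elements is a union of four sets
with distinct subset sums. -/
theorem result :
    ∀ (A : Set ℕ) (c : ℝ), 0 < c →
      (∀ B : Finset ℕ, (↑B : Set ℕ) ⊆ A →
        ∃ D : Finset ℕ, D ⊆ B ∧
          (∀ X Y : Finset ℕ, X ⊆ D → Y ⊆ D → X ≠ Y → X.sum id ≠ Y.sum id) ∧
          c * (B.card : ℝ) ≤ (D.card : ℝ)) →
      ∀ L : ℕ, 1 ≤ L →
        ∃ F : Fin (4 * ⌈1 / c⌉₊ * (Nat.clog 2 (3 * L) + 2) + 2) → Set ℕ,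
          A = ⋃ i, F i ∧
          ∀ i, ∀ B : Finset ℕ, (↑B : Set ℕ) ⊆ F i →
            (B.card ≤ L →
              ∀ X Y : Finset ℕ, X ⊆ B → Y ⊆ B → X ≠ Y → X.sum id ≠ Y.sum id) ∧
            (B.card ≤ 2 ^ L →
              ∃ E : Fin 4 → Finset ℕ, B = Finset.univ.biUnion E ∧
                ∀ j, ∀ X Y : Finset ℕ, X ⊆ E j → Y ⊆ E j → X ≠ Y → X.sum id ≠ Y.sum id) :=
  fun A c hc hA L hL => Pool.Agent.Helper36.LL.pair_nat A c hc hA L hL

end Pool.Agent.Helper86.Kept.LogLogPartition
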