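import Pool.Agent.LL.SidonLL

/-!
Finite parts with `N` elements of a Sidon set are unions of `O(log log N)` quasi-independent sets.
-/

set_option autoImplicit false

open Pool.Agent.Helper72.Sidon in
/-- For every real `C` there is a `K` such that, for every compact abelian group `G` and every set `Λ` of
nontrivial characters of `G` which satisfies the Sidon inequality with the constant `C`:
every finite `V ⊆ Λ` is a union of `K (⌊log₂ ⌊log₂ |V|⌋⌋ + 1)` quasi-independent sets; and for every `n` the
set `Λ` is a union of `K (⌊log₂ n⌋ + 1)` sets `E i` such that every subset of `E i` with at most `n` elements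
is quasi-independent and every subset of `E i` with at most `8 ^ n` elements is a union of four
quasi-independent sets. -/
theorem Pool.Agent.Helper86.Kept.LogLogUnion.result (C : ℝ) :
    ∃ K : ℕ, ∀ (G : Type*) [CommGroup G] [TopologicalSpace G] [IsTopologicalGroup G]
      [CompactSpace G] (Λ : Set (PontryaginDual G)),
      1 ∉ Λ → IsSidonWith C Λ →
        (∀ V : Finset (PontryaginDual G), (V : Set (PontryaginDual G)) ⊆ Λ →
          ∃ E : Fin (K * (Nat.log 2 (Nat.log 2 V.card) + 1)) → Set (PontryaginDual G),
            (∀ i, QuasiIndependent (E i)) ∧ (V : Set (PontryaginDual G)) = ⋃ i, E i) ∧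
        (∀ n : ℕ, ∃ E : Fin (K * (Nat.log 2 n + 1)) → Set (PontryaginDual G), Λ = ⋃ i, E i ∧
          ∀ (i : Fin (K * (Nat.log 2 n + 1))) (B : Finset (PontryaginDual G)),
            (B : Set (PontryaginDual G)) ⊆ E i →
              (B.card ≤ n → QuasiIndependent (B : Set (PontryaginDual G))) ∧
              (B.card ≤ 8 ^ n → ∃ F : Fin 4 → Set (PontryaginDual G),
                (∀ j, QuasiIndependent (F j)) ∧ (B : Set (PontryaginDual G)) = ⋃ j, F j)) := by
  obtain ⟨K, hK⟩ := Pool.Agent.LL.sidon_loglog C
  exact ⟨K, fun G _ _ _ _ Λ h1 hS => hK G Λ h1 hS⟩
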