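import Pool.Agent.ZTS.BoxEnd

/-!
# Deciding whether a permanent vanishes: tests by sums of products with Pfaffians

Deciding whether the permanent of an integer matrix is `0` is complete for the class `C₌P`. We
consider algorithms which test polynomials `G₁, ..., G_k` of the input for zero or, if they are
real, for their sign; the number `k` of tests is not limited, so they may depend on the answers to
other ones and on random strings. Each `G_i` is a sum of `T` products `P * Pf A`, or a limit of
such sums, `P` of degree at most `ν < n`, `A` of order at most `2 m` with polynomial entries of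
degree at most `d`. If `T` is less than exponential, `result` gives an integer matrix `X` with
`perm X = 0` such that the tests see nothing in a large box around `X`, where the permanent takes
large values of both signs. In particular every nonzero multiple of the permanent needs
exponentially large `T`.

Proof. (`Helper97/HY/Box`, `ZTS/BoxEnd`) It is enough that the permanent divides no leading form of
a `G_i`, and these are such limits as well (`ZTS/Seg2`). Let `G = perm * Q`, `Q ≠ 0`, be such a
limit; consider the derivatives of `G` of order `D`, one variable in each of `D` blocks, at the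
point `x₀ + φ₀ (Y)`, where `φ₀ (Y)` is a matrix with `D` blocks depending on parameters `Y`.

1. (`ZTS/DataL`, `ZTS/Psi`) With suitable weights of the entries the lowest part of
`perm (φ₀ (Y) + X)` is a product of linear forms `l₁ ⋯ l_D`, each in one block.
2. (`ZTS/LemM`) If a combination of the derivatives of `l₁ ⋯ l_D Q'` vanishes, `Q' ≠ 0` arbitrary,
the combination of the products of derivatives of the `l_b` is `0` modulo `l₁, ..., l_D`.
3. (`ZTS/Elim`, `ZTS/Count`, `ZTS/Low`) So the derivatives of `G` at generic `x₀` have almost as
many independent multiples as the ones of the permanent at `x₀ = 0`.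
4. (`ZTS/Spec`, `ZTS/MainReal`) For a sum of `T` products there are few independent multiples: the
linear syzygies of the sub-Pfaffians of `A` (`Pool/Agent/PF`, `Pool/Agent/SDD`).
-/

namespace Pool.Agent.Results.MP_381749_lc.ZeroTests

open MvPolynomial Pool.PF

/-- `G` is a limit, coefficient by coefficient, of sums of `T` products `P * pf A`, `P` of degree
at most `ν`, `A` of order at most `2 m` with entries of degree at most `d` -/
def IsLimit {n : ℕ} (m d ν T : ℕ) (G : MvPolynomial (Fin n × Fin n) ℂ) : Prop :=
  ∀ ε : ℝ, 0 < ε → ∃ (s : Fin T → ℕ) (P : Fin T → MvPolynomial (Fin n × Fin n) ℂ)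
    (A : ∀ j, Matrix (Fin (2 * s j)) (Fin (2 * s j)) (MvPolynomial (Fin n × Fin n) ℂ)),
    (∀ j, s j ≤ m) ∧ (∀ j, (P j).totalDegree ≤ ν) ∧ (∀ j p q, (A j p q).totalDegree ≤ d) ∧
    ∀ u, ‖coeff u (∑ j, P j * pf (s j) (A j)) - coeff u G‖ < ε

/-- Let `2 T` be less than the exponential bound. For any number of nonzero polynomials
`G₁, ..., G_k` which are limits of sums of `T` products and any `R` there is an integer matrix `X`
with `perm X = 0` such that no `G_i` vanishes at a complex `Y` with `|Y_ab - X_ab| ≤ R`, but a
change of any entry of `X` by `1` or `-1` gives the permanents `M` and `-M`, where `|M| ≥ R`. -/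
theorem result : ∃ C : ℝ, 1 ≤ C ∧ ∀ n m d ν T k : ℕ, 2 ≤ n → 1 ≤ m → 1 ≤ d → ν < n →
    ∀ η μ t : ℝ, η = 1 - (ν : ℝ) / n → μ = max 1 ((m : ℝ) * d / n) →
      t = (C * μ * (1 + Real.log (μ / η)) / η) ^ (1 / η) →
      2 * (T : ℝ) < Real.exp (n / (C * (t + d) * Real.log t)) →
    ∀ G : Fin k → MvPolynomial (Fin n × Fin n) ℂ, (∀ i, G i ≠ 0 ∧ IsLimit m d ν T (G i)) →
    ∀ R : ℕ, ∃ X : Matrix (Fin n) (Fin n) ℤ, X.permanent = 0 ∧
      (∀ a b, (R : ℤ) ≤ |(X + Matrix.single a b 1).permanent| ∧
        (X - Matrix.single a b 1).permanent = -(X + Matrix.single a b 1).permanent) ∧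
      ∀ Y : Matrix (Fin n) (Fin n) ℂ, (∀ a b, ‖Y a b - X a b‖ ≤ R) →
        ∀ i, eval (fun p => Y p.1 p.2) (G i) ≠ 0 :=
  Pool.ZTS.IP.box_final

end Pool.Agent.Results.MP_381749_lc.ZeroTests
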